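import Pool.Agent.Helper58.Metric.Defs
import Pool.Agent.Helper58.Metric.Signs
import Pool.Agent.Helper58.Metric.Nine

/-!
# The metric polytope `m_9` has no simple vertex

Sketch of the proof.  At a simple vertex the tight triangle inequalities are linearly independent.
In the coordinates `y = 1 - 2x` a triangle inequality reads `a y_ij + b y_ik + c y_jk ≥ -1` with
signs `a b c = 1`.  If two tight inequalities on triangles `ijk`, `ijl` had opposite signs at
`ij`, then the other two triangles of `ijkl` would carry tight inequalities with the same sum of
rows, a dependency.  Hence every edge has one sign `s_ij` in all tight inequalities, and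
`y = -s/3` solves the whole system: the vertex is `{1/3, 2/3}`-valued and the tight inequalities
are the balanced triples of a signed complete graph.  An enumeration by induction on the number of
points (with certificates, up to relabelling and switching) of all signed complete graphs whose
balanced triples have independent rows shows that on `9` points these never form a basis.
-/

namespace Pool.Agent.Results.MP_faed77_co.NoSimpleVertex

open Pool.Agent.Helper58.Metric

/-- Every vertex of the metric polytope `m_9` lies on at least `37` of its facets; in particular
`m_9` has no simple vertex. -/
theorem result : ∀ v ∈ (metricPolytope 9).extremePoints ℝ, 37 ≤ incidence v := by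
  intro v hv
  by_contra hcon
  have hle : (tight v).ncard ≤ 36 := le_trans (ncard_tight_le hv.1) (by omega)
  have hcard : Fintype.card (Pair 9) = 36 := by decide +kernel
  have hs : Simple v := ⟨hv.1, ext_of_extreme hv, sur_of_card hv (by rw [hcard]; exact hle)⟩
  obtain ⟨G, hG, hI, hE⟩ := hs.exists_graph (by norm_num)
  exact no_nine G hG hI hE

end Pool.Agent.Results.MP_faed77_co.NoSimpleVertex
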